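import Mathlib

/-! Minimal interval arithmetic on `Int` scaled by `2^44`, for kernel evaluation. -/

set_option autoImplicit false

namespace Pool.Agent.H95.MIv

/-- scale -/
def SC : Int := 17592186044416

theorem SC_pos : (0:ℝ) < (SC : ℝ) := by norm_num [SC]

structure Iv where
  lo : Int
  hi : Int

/-- `x ∈ I` -/
def mem (x : ℝ) (I : Iv) : Prop := (I.lo : ℝ) ≤ x * SC ∧ x * SC ≤ I.hi

def add (I J : Iv) : Iv := ⟨I.lo + J.lo, I.hi + J.hi⟩
def neg (I : Iv) : Iv := ⟨-I.hi, -I.lo⟩
def sub (I J : Iv) : Iv := ⟨I.lo - J.hi, I.hi - J.lo⟩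
def mulG (I J : Iv) : Iv :=
  ⟨(min (min (I.lo * J.lo) (I.lo * J.hi)) (min (I.hi * J.lo) (I.hi * J.hi))) / SC,
   -((-(max (max (I.lo * J.lo) (I.lo * J.hi)) (max (I.hi * J.lo) (I.hi * J.hi)))) / SC)⟩
/-- product, with a fast path for nonnegative intervals -/
def mul (I J : Iv) : Iv :=
  match I.lo, J.lo, I.hi, J.hi with
  | .ofNat a, .ofNat b, .ofNat c, .ofNat d =>
    ⟨.ofNat (a * b / 17592186044416), .ofNat ((c * d + 17592186044415) / 17592186044416)⟩
  | _, _, _, _ => mulG I J
/-- rational constant `n/d`, `d > 0` -/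
def rat (n : Int) (d : Int) : Iv := ⟨n * SC / d, -((-(n * SC)) / d)⟩

theorem floor_le (a : Int) : ((a / SC : Int) : ℝ) * SC ≤ a := by
  have h : a / SC * SC ≤ a := Int.ediv_mul_le a (by norm_num [SC])
  exact_mod_cast h

theorem le_ceil (a : Int) : (a : ℝ) ≤ ((-((-a) / SC) : Int) : ℝ) * SC := by
  have h := floor_le (-a)
  push_cast at h ⊢
  linarith

theorem mem_add {x y : ℝ} {I J : Iv} (hx : mem x I) (hy : mem y J) : mem (x + y) (add I J) := by
  obtain ⟨h1, h2⟩ := hx
  obtain ⟨h3, h4⟩ := hy
  constructor <;> simp only [add] <;> push_cast <;> nlinarith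

theorem mem_neg {x : ℝ} {I : Iv} (hx : mem x I) : mem (-x) (neg I) := by
  obtain ⟨h1, h2⟩ := hx
  constructor <;> simp only [neg] <;> push_cast <;> nlinarith

theorem mem_sub {x y : ℝ} {I J : Iv} (hx : mem x I) (hy : mem y J) : mem (x - y) (sub I J) := by
  obtain ⟨h1, h2⟩ := hx
  obtain ⟨h3, h4⟩ := hy
  constructor <;> simp only [sub] <;> push_cast <;> nlinarith

/-- product of reals in boxes lies between the min and max of the corner products -/
theorem corner_le {a b c d x y m : ℝ} (h1 : a ≤ x) (h2 : x ≤ b) (h3 : c ≤ y) (h4 : y ≤ d)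
    (m1 : m ≤ a * c) (m2 : m ≤ a * d) (m3 : m ≤ b * c) (m4 : m ≤ b * d) : m ≤ x * y := by
  rcases le_total 0 y with hy | hy
  · -- x*y ≥ a*y
    have e1 : a * y ≤ x * y := mul_le_mul_of_nonneg_right h1 hy
    rcases le_total 0 a with ha | ha
    · have : a * c ≤ a * y := mul_le_mul_of_nonneg_left h3 ha
      linarith
    · have : a * d ≤ a * y := mul_le_mul_of_nonpos_left h4 ha
      linarith
  · have e1 : b * y ≤ x * y := mul_le_mul_of_nonpos_right h2 hy
    rcases le_total 0 b with hb | hb
    · have : b * c ≤ b * y := mul_le_mul_of_nonneg_left h3 hb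
      linarith
    · have : b * d ≤ b * y := mul_le_mul_of_nonpos_left h4 hb
      linarith

theorem mem_mulG {x y : ℝ} {I J : Iv} (hx : mem x I) (hy : mem y J) : mem (x * y) (mulG I J) := by
  obtain ⟨h1, h2⟩ := hx
  obtain ⟨h3, h4⟩ := hy
  have hS := SC_pos
  constructor
  · simp only [mulG]
    set m := min (min (I.lo * J.lo) (I.lo * J.hi)) (min (I.hi * J.lo) (I.hi * J.hi)) with hm
    have k1 : m ≤ I.lo * J.lo := le_trans (min_le_left _ _) (min_le_left _ _)
    have k2 : m ≤ I.lo * J.hi := le_trans (min_le_left _ _) (min_le_right _ _)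
    have k3 : m ≤ I.hi * J.lo := le_trans (min_le_right _ _) (min_le_left _ _)
    have k4 : m ≤ I.hi * J.hi := le_trans (min_le_right _ _) (min_le_right _ _)
    have h5 : (m : ℝ) ≤ (x * SC) * (y * SC) :=
      corner_le h1 h2 h3 h4 (by exact_mod_cast k1) (by exact_mod_cast k2) (by exact_mod_cast k3)
        (by exact_mod_cast k4)
    have h6 := floor_le m
    have h7 : ((m / SC : Int) : ℝ) * SC ≤ (x * y * SC) * SC := by
      calc ((m / SC : Int) : ℝ) * SC ≤ m := h6
        _ ≤ (x * SC) * (y * SC) := h5
        _ = (x * y * SC) * SC := by ring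
    exact le_of_mul_le_mul_right h7 hS
  · simp only [mulG]
    set m := max (max (I.lo * J.lo) (I.lo * J.hi)) (max (I.hi * J.lo) (I.hi * J.hi)) with hm
    have k1 : I.lo * J.lo ≤ m := le_trans (le_max_left _ _) (le_max_left _ _)
    have k2 : I.lo * J.hi ≤ m := le_trans (le_max_right _ _) (le_max_left _ _)
    have k3 : I.hi * J.lo ≤ m := le_trans (le_max_left _ _) (le_max_right _ _)
    have k4 : I.hi * J.hi ≤ m := le_trans (le_max_right _ _) (le_max_right _ _)
    have h5 : (-(m : ℝ)) ≤ (-(x * SC)) * (y * SC) :=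
      corner_le (a := -(I.hi : ℝ)) (b := -(I.lo : ℝ)) (by linarith) (by linarith) h3 h4
        (by have : ((I.hi * J.lo : Int) : ℝ) ≤ m := by exact_mod_cast k3
            push_cast at this; linarith)
        (by have : ((I.hi * J.hi : Int) : ℝ) ≤ m := by exact_mod_cast k4
            push_cast at this; linarith)
        (by have : ((I.lo * J.lo : Int) : ℝ) ≤ m := by exact_mod_cast k1
            push_cast at this; linarith)
        (by have : ((I.lo * J.hi : Int) : ℝ) ≤ m := by exact_mod_cast k2
            push_cast at this; linarith)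
    have h6 := le_ceil m
    have h7 : (x * y * SC) * SC ≤ ((-((-m) / SC) : Int) : ℝ) * SC := by
      calc (x * y * SC) * SC = -((-(x * SC)) * (y * SC)) := by ring
        _ ≤ m := by linarith
        _ ≤ _ := h6
    exact le_of_mul_le_mul_right h7 hS

theorem mem_mul {x y : ℝ} {I J : Iv} (hx : mem x I) (hy : mem y J) : mem (x * y) (mul I J) := by
  obtain ⟨l, h⟩ := I
  obtain ⟨l', h'⟩ := J
  cases l with
  | negSucc a => exact mem_mulG hx hy
  | ofNat a =>
    cases l' with
    | negSucc b => exact mem_mulG hx hy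
    | ofNat b =>
      cases h with
      | negSucc c => exact mem_mulG hx hy
      | ofNat c =>
        cases h' with
        | negSucc d => exact mem_mulG hx hy
        | ofNat d =>
          obtain ⟨h1, h2⟩ := hx
          obtain ⟨h3, h4⟩ := hy
          simp only [Int.ofNat_eq_natCast, Int.cast_natCast] at h1 h2 h3 h4
          have hS := SC_pos
          have ha : (0:ℝ) ≤ a := Nat.cast_nonneg a
          have hb : (0:ℝ) ≤ b := Nat.cast_nonneg b
          have hSC : (SC : ℝ) = 17592186044416 := by norm_num [SC]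
          constructor
          · show (((a * b / 17592186044416 : ℕ) : Int) : ℝ) ≤ x * y * SC
            have k : ((a * b / 17592186044416 : ℕ) : ℝ) * 17592186044416 ≤ a * b := by
              exact_mod_cast Nat.div_mul_le_self (a * b) 17592186044416
            have k2 : (a : ℝ) * b ≤ (x * SC) * (y * SC) :=
              mul_le_mul h1 h3 hb (le_trans ha h1)
            rw [Int.cast_natCast]
            have k3 : ((a * b / 17592186044416 : ℕ) : ℝ) * SC ≤ (x * y * SC) * SC := by
              rw [hSC] at *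
              nlinarith
            exact le_of_mul_le_mul_right k3 hS
          · show x * y * SC ≤ ((((c * d + 17592186044415) / 17592186044416 : ℕ) : Int) : ℝ)
            have k : c * d ≤ (c * d + 17592186044415) / 17592186044416 * 17592186044416 := by
              have := Nat.lt_div_mul_add (a := c * d + 17592186044415) (b := 17592186044416)
                (by norm_num)
              omega
            have k' : (c : ℝ) * d ≤
                (((c * d + 17592186044415) / 17592186044416 : ℕ) : ℝ) * 17592186044416 := by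
              exact_mod_cast k
            have k2 : (x * SC) * (y * SC) ≤ (c : ℝ) * d :=
              mul_le_mul h2 h4 (le_trans hb h3) (le_trans ha (le_trans h1 h2))
            rw [Int.cast_natCast]
            have k3 : (x * y * SC) * SC ≤
                (((c * d + 17592186044415) / 17592186044416 : ℕ) : ℝ) * SC := by
              rw [hSC] at *
              nlinarith
            exact le_of_mul_le_mul_right k3 hS

theorem mem_rat (n d : Int) (hd : 0 < d) : mem ((n : ℝ) / d) (rat n d) := by
  have hd' : (0:ℝ) < d := by exact_mod_cast hd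
  constructor
  · simp only [rat]
    have h : n * SC / d * d ≤ n * SC := Int.ediv_mul_le _ hd.ne'
    have h' : ((n * SC / d : Int) : ℝ) * d ≤ n * SC := by exact_mod_cast h
    rw [div_mul_eq_mul_div, le_div_iff₀ hd']
    exact h'
  · simp only [rat]
    have h : -(n * SC) / d * d ≤ -(n * SC) := Int.ediv_mul_le _ hd.ne'
    have h' : ((-(n * SC) / d : Int) : ℝ) * d ≤ -(n * SC) := by exact_mod_cast h
    rw [div_mul_eq_mul_div, div_le_iff₀ hd']
    push_cast at h' ⊢
    linarith

theorem mem_of_le {x : ℝ} {a b : Int} (h1 : (a : ℝ) ≤ x * SC) (h2 : x * SC ≤ b) :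
    mem x ⟨a, b⟩ := ⟨h1, h2⟩

/-- bisection checker: `f` is an interval function, we certify `0 ≤ F x` on `[a,b]` -/
def chk (f : Iv → Iv) : Nat → Int → Int → Bool
  | 0, _, _ => false
  | k + 1, a, b => bif decide (0 ≤ (f ⟨a, b⟩).lo) then true else
      (chk f k a ((a + b) / 2) && chk f k ((a + b) / 2) b)

theorem chk_sound (f : Iv → Iv) (F : ℝ → ℝ) (P : ℝ → Prop)
    (hf : ∀ x I, P x → mem x I → mem (F x) (f I)) :
    ∀ (k : Nat) (a b : Int), chk f k a b = true →
      ∀ x : ℝ, P x → (a : ℝ) ≤ x * SC → x * SC ≤ b → 0 ≤ F x := by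
  intro k
  induction k with
  | zero => intro a b h; simp [chk] at h
  | succ k ih =>
    intro a b h x hP h1 h2
    rw [chk] at h
    cases hd : decide (0 ≤ (f ⟨a, b⟩).lo) with
    | true =>
      have h3 := (hf x ⟨a, b⟩ hP ⟨h1, h2⟩).1
      have h4 : (0:ℝ) ≤ ((f ⟨a, b⟩).lo : ℝ) := by exact_mod_cast of_decide_eq_true hd
      have h5 : 0 ≤ F x * SC := le_trans h4 h3
      exact nonneg_of_mul_nonneg_left h5 SC_pos
    | false =>
      rw [hd] at h
      simp only [cond_false, Bool.and_eq_true] at h
      rcases le_total (x * SC) (((a + b) / 2 : Int) : ℝ) with h3 | h3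
      · exact ih _ _ h.1 x hP h1 h3
      · exact ih _ _ h.2 x hP h3 h2

end Pool.Agent.H95.MIv
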