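import Pool.Agent.H95.Tal.W2alg
import Pool.Agent.H95.Tal.MIv
import Pool.Agent.H58.Tal.M6B

/-! Module M6W: `wlo ≤ W2 ≤ whi` on `(0,.966]`. -/

set_option autoImplicit false

open Finset Real

namespace Pool.Agent.H58.Tal.W6

open Pool.Agent.H95.MIv

/-- `log 2` -/
def tauI : Iv := ⟨12193974151999, 12193974160797⟩

theorem mem_tau : mem (Real.log 2) tauI := by
  have h1 := Real.log_two_gt_d9
  have h2 := Real.log_two_lt_d9
  constructor
  · simp only [tauI, SC]; push_cast; nlinarith
  · simp only [tauI, SC]; push_cast; nlinarith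

/-- interval for `b2` -/
def bLo (e : Iv) : Iv :=
  let e2 := mul e e
  let t2 := mul tauI tauI
  sub (mul t2 (rat 1 12)) (mul (mul (mul t2 t2) e2) (rat 1 720))

def bR (e : Iv) : Iv :=
  let e2 := mul e e
  let t2 := mul tauI tauI
  mul (mul (mul (mul t2 t2) t2) (mul e2 e2)) (rat 1 30240)

def bI (e : Iv) : Iv := ⟨(bLo e).lo, (bLo e).hi + (bR e).hi⟩

def one : Iv := ⟨SC, SC⟩

theorem mem_one : mem 1 one := by
  constructor <;> simp [one]

def gI (e : Iv) : Iv :=
  add one (mul e (add (rat (-21) 20) (mul e (add (rat 59 100) (mul e (rat (-11) 50))))))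

def gI' (e : Iv) : Iv := add (rat (-21) 20) (mul e (add (rat 59 50) (mul e (rat (-33) 50))))

/-- interval for the numerator -/
def numI (e : Iv) : Iv :=
  let b := bI e
  let th := mul tauI (rat 1 2)
  let eb := mul e b
  let h := sub th eb
  let m := add th eb
  let e1 := add one e
  let k := mul e1 h
  let c := sub one (mul e k)
  let B := sub one (mul e h)
  let β := add one (mul e m)
  let a := sub (rat 1 2) (mul tauI (rat 1 4))
  let X := add (mul c (sub one (mul e (add one (mul (rat 2 1) k)))))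
    (mul e (add one (mul (mul (mul e1 e1) B) m)))
  let S := add (mul (gI e) X) (mul (mul (mul e (gI' e)) e1) c)
  let ab := mul a β
  mul (mul ab ab) S

def cubeI (e : Iv) : Iv := mul (gI e) (mul (gI e) (gI e))

/-- `numW - 4 wlo g³` -/
def loI (e : Iv) : Iv := sub (numI e) (mul (rat 1048 10000) (cubeI e))
/-- `4 whi g³ - numW` -/
def hiI (e : Iv) : Iv := sub (mul (rat 492 1000) (cubeI e)) (numI e)

theorem mem_bI (hB : M6B) (x : ℝ) (I : Iv) (hx : 0 < x ∧ x ≤ 1) (h : mem x I) :
    mem (bb2 x) (bI I) := by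
  obtain ⟨h1, h2⟩ := hB x hx.1 hx.2
  have e2 := mem_mul h h
  have t2 := mem_mul mem_tau mem_tau
  have L := mem_sub (mem_mul t2 (mem_rat 1 12 (by norm_num)))
    (mem_mul (mem_mul (mem_mul t2 t2) e2) (mem_rat 1 720 (by norm_num)))
  have R := mem_mul (mem_mul (mem_mul (mem_mul t2 t2) t2) (mem_mul e2 e2))
    (mem_rat 1 30240 (by norm_num))
  have hx2 : 0 < x ^ 2 := pow_pos hx.1 2
  have k1 : Real.log 2 * Real.log 2 * ((1:Int) / (12:Int) : ℝ) -
      Real.log 2 * Real.log 2 * (Real.log 2 * Real.log 2) * (x * x) * ((1:Int) / (720:Int) : ℝ) ≤ bb2 x := by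
    unfold bb2
    rw [le_div_iff₀ hx2]
    push_cast
    nlinarith [h1]
  have k2 : bb2 x ≤ (Real.log 2 * Real.log 2 * ((1:Int) / (12:Int) : ℝ) -
      Real.log 2 * Real.log 2 * (Real.log 2 * Real.log 2) * (x * x) * ((1:Int) / (720:Int) : ℝ)) +
      Real.log 2 * Real.log 2 * (Real.log 2 * Real.log 2) * (Real.log 2 * Real.log 2) *
        (x * x * (x * x)) * ((1:Int) / (30240:Int) : ℝ) := by
    unfold bb2
    rw [div_le_iff₀ hx2]
    push_cast
    nlinarith [h2]
  have hS := SC_pos
  constructor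
  · exact le_trans L.1 (mul_le_mul_of_nonneg_right k1 hS.le)
  · refine le_trans (mul_le_mul_of_nonneg_right k2 hS.le) ?_
    rw [add_mul]
    have := add_le_add L.2 R.2
    show _ ≤ (((bLo I).hi + (bR I).hi : Int) : ℝ)
    rw [Int.cast_add]
    exact this

theorem mem_gI (x : ℝ) (I : Iv) (h : mem x I) : mem (gg x) (gI I) := by
  have := mem_add mem_one (mem_mul h (mem_add (mem_rat (-21) 20 (by norm_num))
    (mem_mul h (mem_add (mem_rat 59 100 (by norm_num)) (mem_mul h (mem_rat (-11) 50 (by norm_num)))))))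
  have e : gg x = 1 + x * (((-21 : Int) : ℝ) / ((20:Int):ℝ) + x * (((59:Int):ℝ) / ((100:Int):ℝ) +
      x * (((-11:Int):ℝ) / ((50:Int):ℝ)))) := by
    unfold gg; push_cast; ring
  rw [e]
  exact this

theorem mem_gI' (x : ℝ) (I : Iv) (h : mem x I) : mem (gg' x) (gI' I) := by
  have := mem_add (mem_rat (-21) 20 (by norm_num))
    (mem_mul h (mem_add (mem_rat 59 50 (by norm_num)) (mem_mul h (mem_rat (-33) 50 (by norm_num)))))
  have e : gg' x = (((-21 : Int) : ℝ) / ((20:Int):ℝ) + x * (((59:Int):ℝ) / ((50:Int):ℝ) +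
      x * (((-33:Int):ℝ) / ((50:Int):ℝ)))) := by
    unfold gg'; push_cast; ring
  rw [e]
  exact this

theorem mem_numI (hB : M6B) (x : ℝ) (I : Iv) (hx : 0 < x ∧ x ≤ 1) (h : mem x I) :
    mem (numW x (Real.log 2) (bb2 x)) (numI I) := by
  have hb := mem_bI hB x I hx h
  have th := mem_mul mem_tau (mem_rat 1 2 (by norm_num))
  have eb := mem_mul h hb
  have hh := mem_sub th eb
  have hm := mem_add th eb
  have e1 := mem_add mem_one h
  have hk := mem_mul e1 hh
  have hc := mem_sub mem_one (mem_mul h hk)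
  have hBB := mem_sub mem_one (mem_mul h hh)
  have hβ := mem_add mem_one (mem_mul h hm)
  have ha := mem_sub (mem_rat 1 2 (by norm_num)) (mem_mul mem_tau (mem_rat 1 4 (by norm_num)))
  have hX := mem_add (mem_mul hc (mem_sub mem_one (mem_mul h (mem_add mem_one
    (mem_mul (mem_rat 2 1 (by norm_num)) hk)))))
    (mem_mul h (mem_add mem_one (mem_mul (mem_mul (mem_mul e1 e1) hBB) hm)))
  have hS := mem_add (mem_mul (mem_gI x I h) hX) (mem_mul (mem_mul (mem_mul h (mem_gI' x I h)) e1) hc)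
  have hab := mem_mul ha hβ
  have hfin := mem_mul (mem_mul hab hab) hS
  convert hfin using 1
  · unfold numW gg gg'
    push_cast
    ring
  · rfl

theorem mem_cubeI (x : ℝ) (I : Iv) (h : mem x I) : mem (gg x ^ 3) (cubeI I) := by
  have hg := mem_gI x I h
  have := mem_mul hg (mem_mul hg hg)
  have e : gg x ^ 3 = gg x * (gg x * gg x) := by ring
  rw [e]
  exact this

theorem mem_loI (hB : M6B) (x : ℝ) (I : Iv) (hx : 0 < x ∧ x ≤ 1) (h : mem x I) :
    mem (numW x (Real.log 2) (bb2 x) - 4 * wlo * gg x ^ 3) (loI I) := by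
  have := mem_sub (mem_numI hB x I hx h) (mem_mul (mem_rat 1048 10000 (by norm_num)) (mem_cubeI x I h))
  have e : 4 * wlo = ((1048:Int):ℝ) / ((10000:Int):ℝ) := by unfold wlo; push_cast; norm_num
  rw [e]
  exact this

theorem mem_hiI (hB : M6B) (x : ℝ) (I : Iv) (hx : 0 < x ∧ x ≤ 1) (h : mem x I) :
    mem (4 * whi * gg x ^ 3 - numW x (Real.log 2) (bb2 x)) (hiI I) := by
  have := mem_sub (mem_mul (mem_rat 492 1000 (by norm_num)) (mem_cubeI x I h)) (mem_numI hB x I hx h)
  have e : 4 * whi = ((492:Int):ℝ) / ((1000:Int):ℝ) := by unfold whi; push_cast; norm_num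
  rw [e]
  exact this

/-- `16994051718906 ≥ .966 · 2^44` -/
theorem chk_lo : chk loI 16 0 16994051718906 = true := by decide +kernel

theorem chk_hi : chk hiI 16 0 16994051718906 = true := by decide +kernel

theorem m6w_of (hB : M6B) : M6W := by
  intro e he he1
  have he2 : e ≤ 1 := by linarith
  have hg := gg_pos' e he he2
  have h1 := chk_sound loI (fun x => numW x (Real.log 2) (bb2 x) - 4 * wlo * gg x ^ 3)
    (fun x => 0 < x ∧ x ≤ 1) (fun x I hx h => mem_loI hB x I hx h) 16 0 16994051718906 chk_lo e ⟨he, he2⟩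
    (by push_cast; have := SC_pos; positivity) (by simp only [SC]; push_cast; nlinarith)
  have h2 := chk_sound hiI (fun x => 4 * whi * gg x ^ 3 - numW x (Real.log 2) (bb2 x))
    (fun x => 0 < x ∧ x ≤ 1) (fun x I hx h => mem_hiI hB x I hx h) 16 0 16994051718906 chk_hi e ⟨he, he2⟩
    (by push_cast; have := SC_pos; positivity) (by simp only [SC]; push_cast; nlinarith)
  rw [W2_eq e he he2]
  have hg3 : 0 < 4 * gg e ^ 3 := by positivity
  constructor
  · rw [le_div_iff₀ hg3]; linarith
  · rw [div_le_iff₀ hg3]; linarith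

/-- MODULE M6W -/
theorem m6w : M6W := m6w_of m6b

end Pool.Agent.H58.Tal.W6
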