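import Pool.Agent.H58.Tal.Defs6

/-! Module M6W, algebraic part. -/

set_option autoImplicit false

open Finset Real

namespace Pool.Agent.H58.Tal

/-- `b2(e) = (B - 1 + τ e/2)/e²` -/
noncomputable def bb2 (e : ℝ) : ℝ := (Bb e - 1 + Real.log 2 * e / 2) / e ^ 2

theorem Bb_eq (e : ℝ) (he : 0 < e) : Bb e = 1 - Real.log 2 * e / 2 + e ^ 2 * bb2 e := by
  unfold bb2
  field_simp
  ring

theorem Bb'_eq (e : ℝ) (he : 0 < e) : Bb' e = -(Bb e) * (Real.log 2 / 2 + e * bb2 e) := by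
  unfold Bb'
  have h := Bb_eq e he
  have h1 : 1 - Bb e - Real.log 2 * e = -e * (Real.log 2 / 2 + e * bb2 e) := by
    rw [h]; ring
  rw [h1]
  field_simp

/-- numerator of `W2`: `W2 = numW/(4 g³)` -/
noncomputable def numW (e τ b : ℝ) : ℝ :=
  let B := 1 - τ * e / 2 + e ^ 2 * b
  let B' := -B * (τ / 2 + e * b)
  let β := B + τ * e
  let a := (2 - τ) / 4
  let g := 1 - (21 / 20) * e + (59 / 100) * e ^ 2 - (11 / 50) * e ^ 3
  let g' := -(21 / 20) + (59 / 50) * e - (33 / 50) * e ^ 2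
  let c := (1 + e) * B - e
  (a * β) ^ 2 * (g * (2 * c ^ 2 - (1 + e) * c - e * ((1 + e) ^ 2 * B' - 1)) + e * g' * (1 + e) * c)

theorem gg_pos' (e : ℝ) (he : 0 < e) (he1 : e ≤ 1) : 0 < gg e := by
  unfold gg
  nlinarith [sq_nonneg (e - 1), sq_nonneg e, mul_pos he he, mul_nonneg he.le (sub_nonneg.2 he1),
    mul_nonneg (mul_nonneg he.le he.le) (sub_nonneg.2 he1)]

theorem W2_eq (e : ℝ) (he : 0 < e) (he1 : e ≤ 1) :
    W2 e = numW e (Real.log 2) (bb2 e) / (4 * gg e ^ 3) := by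
  have hg := gg_pos' e he he1
  have h1e : (1 + e) ≠ 0 := by positivity
  have hB := Bb_eq e he
  have hB' := Bb'_eq e he
  unfold W2 sq YY YY' ff
  rw [hB']
  have hnum : numW e (Real.log 2) (bb2 e) = (ac * (Bb e + Real.log 2 * e)) ^ 2 *
      (gg e * (2 * ((1 + e) * Bb e - e) ^ 2 - (1 + e) * ((1 + e) * Bb e - e)
        - e * ((1 + e) ^ 2 * (-(Bb e) * (Real.log 2 / 2 + e * bb2 e)) - 1))
        + e * gg' e * (1 + e) * ((1 + e) * Bb e - e)) := by
    unfold numW ac gg gg'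
    rw [hB]
  rw [hnum]
  generalize Bb e = B
  generalize bb2 e = b
  generalize gg e = g at *
  generalize gg' e = g'
  generalize ac = a
  generalize Real.log 2 = τ
  have hg' : g ≠ 0 := hg.ne'
  have he' : e ≠ 0 := he.ne'
  field_simp
  ring

end Pool.Agent.H58.Tal
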